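import Pool.Agent.U41.PH.FinE

/-!
MP_6a3dac_ag: regular proper flat models over the rings of integers of all number fields
simultaneously, for a positive proportion of all hypersurfaces of every degree `d ≥ 3` and every
dimension.

1. Among the forms of degree `d` with integral coefficients of absolute value at most `H` at least
   the proportion `δ > 0` defines, over every number field `K`, a smooth hypersurface with a regular
   proper flat model over the ring of integers of `K`, for all large `H`.
2. For every `ε > 0` there is `Y₀` such that for `Y ≥ Y₀` in every residue class modulo `M`, if the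
   prime divisors of `M` are at most `Y`, at least the proportion `1 - ε` of the forms has the
   following property. Over every number field `K` over which the form has a good equation at the
   primes over the `p ≤ Y` (an integral equation which is regular there, or regular outside one
   rational point where it has an ordinary double point of any depth), it defines a smooth
   hypersurface with a regular proper flat model over the ring of integers of `K`. There is no
   condition at the primes over the `p > Y`.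
-/

set_option autoImplicit false

open AlgebraicGeometry CategoryTheory CategoryTheory.Limits MvPolynomial

open scoped NumberField

namespace Pool.Agent.Results.MP_6a3dac_ag.AllNumberFields

/-- The polynomial in the variables `X j`, `j ≠ s`, obtained from `H` by setting `X s = 1`: the
equation of the hypersurface `H = 0` in the chart `X s ≠ 0` of the projective space over `R`. -/
noncomputable def dehom {R : Type} [CommRing R] {m : ℕ} (s : Fin m) (H : MvPolynomial (Fin m) R) :
    MvPolynomial {j : Fin m // j ≠ s} R :=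
  aeval (fun j => if h : j = s then 1 else X ⟨j, h⟩) H

/-- The ideal `Q` of the polynomial ring over `R` lies over `𝔭`. -/
def LiesAbove {R σ : Type} [CommRing R] (𝔭 : Ideal R) (Q : Ideal (MvPolynomial σ R)) : Prop :=
  ∀ r : R, C r ∈ Q ↔ r ∈ 𝔭

/-- For a prime `Q` of `A`, the element `f` is not in the square of the maximal ideal of the
localization of `A` at `Q`. -/
def NotInSquare {A : Type} [CommRing A] (Q : Ideal A) (f : A) : Prop :=
  ∀ h, h ∉ Q → h * f ∉ Q ^ 2

/-- The scheme `H = 0` in the projective space over `R` is regular at its points over `𝔭` in the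
chart `X s ≠ 0`: for every prime `Q` of the polynomial ring of the chart lying over `𝔭` and
containing the equation, the equation is not in the square of the maximal ideal of the localization
at `Q`. -/
def IsRegularInChart {R : Type} [CommRing R] (𝔭 : Ideal R) {m : ℕ} (H : MvPolynomial (Fin m) R)
    (s : Fin m) : Prop :=
  ∀ Q : Ideal (MvPolynomial {j : Fin m // j ≠ s} R), Q.IsPrime →
    LiesAbove 𝔭 Q → dehom s H ∈ Q → NotInSquare Q (dehom s H)

/-- The scheme `H = 0` in the projective space over `R` is regular at its points over `𝔭`. -/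
def IsRegularAt {R : Type} [CommRing R] (𝔭 : Ideal R) {m : ℕ} (H : MvPolynomial (Fin m) R) :
    Prop :=
  ∀ s : Fin m, IsRegularInChart 𝔭 H s

/-- The scheme `H = 0` in the projective space over `R`, with coordinates `X 0, ..., X m`, is
regular at its points over `𝔭` outside the point `(1 : 0 : ... : 0)`, where it has an ordinary
double point: `2` is not in `𝔭`, and for the polynomial `f` obtained from `H` by setting `X 0 = 1`
there is `k ≥ 2` such that the constant coefficient of `f` is in `𝔭 ^ k` but not in `𝔭 ^ (k + 1)`,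
the linear coefficients are in `𝔭 ^ k`, and the quadratic part of `f` is nondegenerate modulo `𝔭`:
every variable, multiplied by a constant outside of `𝔭`, is in the ideal generated by the partial
derivatives of the quadratic part. -/
structure HasDoublePointAt {R : Type} [CommRing R] (𝔭 : Ideal R) {m : ℕ}
    (H : MvPolynomial (Fin (m + 1)) R) : Prop where
  two : (2 : R) ∉ 𝔭
  depth : ∃ k, 2 ≤ k ∧ constantCoeff (dehom 0 H) ∈ 𝔭 ^ k ∧
    constantCoeff (dehom 0 H) ∉ 𝔭 ^ (k + 1) ∧
    ∀ l, coeff (Finsupp.single l 1) (dehom 0 H) ∈ 𝔭 ^ k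
  nondegenerate : ∀ l, ∃ δ : R, δ ∉ 𝔭 ∧ C δ * X l ∈
    Ideal.span (Set.range fun j => pderiv j (homogeneousComponent 2 (dehom 0 H)))
  regular : ∀ s, s ≠ 0 → IsRegularInChart 𝔭 H s

/-- The partial derivatives of `G` have no common zero (over an algebraic closure) but the origin:
every variable has a power in the ideal they generate. -/
def IsSmooth {K : Type} [Field K] {m : ℕ} (G : MvPolynomial (Fin m) K) : Prop :=
  ∀ i, X i ∈ (Ideal.span (Set.range fun j => pderiv j G)).radical

/-- `H` is obtained from `G` by the linear change of coordinates `T` and multiplication with the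
scalar `l`. -/
def IsEquation {R K : Type} [CommRing R] [Field K] [Algebra R K] {m : ℕ}
    (G : MvPolynomial (Fin m) K) (H : MvPolynomial (Fin m) R) (l : K)
    (T : Matrix (Fin m) (Fin m) K) : Prop :=
  map (algebraMap R K) H = C l * aeval (fun i => ∑ j, C (T i j) * X j) G

/-- A linear change of coordinates over the number field and a scalar turn `G` into a form with
coefficients in `R` whose hypersurface is regular at its points over `𝔭`, or is regular there
outside the point `(1 : 0 : ... : 0)`, where it has an ordinary double point. -/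
def HasGoodEquationAt {R K : Type} [CommRing R] [Field K] [Algebra R K] (𝔭 : Ideal R) {m : ℕ}
    (G : MvPolynomial (Fin (m + 1)) K) : Prop :=
  ∃ (H : MvPolynomial (Fin (m + 1)) R) (l : K) (T T' : Matrix (Fin (m + 1)) (Fin (m + 1)) K),
    l ≠ 0 ∧ T * T' = 1 ∧ IsEquation G H l T ∧ (IsRegularAt 𝔭 H ∨ HasDoublePointAt 𝔭 H)

/-- The exponents of the monomials of degree `d` in `m` variables. -/
abbrev Exponent (m d : ℕ) : Type := {α : Fin m →₀ ℕ // α.degree = d}

/-- The form of degree `d` over `K` with the integral coefficients `a`. -/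
noncomputable def form (K : Type) [Field K] {m d : ℕ} (a : Exponent m d → ℤ) :
    MvPolynomial (Fin m) K :=
  map (algebraMap ℤ K) (∑ᶠ α : Exponent m d, monomial α.1 (a α))

/-- The dimension of the local ring `A` equals the dimension of its cotangent space. -/
def HasRegularDimension (A : Type) [CommRing A] [IsLocalRing A] : Prop :=
  ringKrullDim A = (((Module.finrank (IsLocalRing.ResidueField A)
    (IsLocalRing.CotangentSpace A) : ℕ) : ℕ∞) : WithBot ℕ∞)

/-- The generic fibre of `g` is isomorphic over `E` to `X` with the morphism `f`. -/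
def HasGenericFibre {E : Type} [Field E] {X Y : Scheme.{0}}
    (f : X ⟶ Spec (CommRingCat.of E)) (g : Y ⟶ Spec (CommRingCat.of (𝓞 E))) : Prop :=
  ∃ e : pullback g (Spec.map (CommRingCat.ofHom (algebraMap (𝓞 E) E))) ≅ X,
    e.hom ≫ f = pullback.snd g (Spec.map (CommRingCat.ofHom (algebraMap (𝓞 E) E)))

/-- The morphism `g` from `Y` is a regular proper flat model over the ring of integers of `E` of `X`
with the morphism `f` to `Spec E`. -/
def IsRegularProperFlatModel {E : Type} [Field E] {X Y : Scheme.{0}}
    (f : X ⟶ Spec (CommRingCat.of E)) (g : Y ⟶ Spec (CommRingCat.of (𝓞 E))) : Prop :=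
  IsProper g ∧ Flat g ∧ (∀ y : Y, HasRegularDimension (Y.presheaf.stalk y)) ∧ HasGenericFibre f g

/-- The structure morphism of `Proj ℬ` over `E`. -/
noncomputable def structureMorphism {E B : Type} [Field E] [CommRing B] [Algebra E B]
    (ℬ : ℕ → Submodule E B) [GradedAlgebra ℬ] : Proj ℬ ⟶ Spec (CommRingCat.of E) :=
  Proj.toSpecZero ℬ ≫ Spec.map (CommRingCat.ofHom (algebraMap E (ℬ 0)))

/-- Every scheme `X` over `E` isomorphic over `E` to the hypersurface `Proj (E[X] / (G))` has a
regular proper flat model over the ring of integers of `E`. -/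
def HypersurfaceHasModel {E : Type} [Field E] {m : ℕ} (G : MvPolynomial (Fin m) E) : Prop :=
  ∀ (B : Type) [CommRing B] [Algebra E B]
    (π : MvPolynomial (Fin m) E →ₐ[E] B), Function.Surjective π →
    RingHom.ker π = Ideal.span {G} →
  ∀ (ℬ : ℕ → Submodule E B) [GradedAlgebra ℬ],
    (∀ d, ℬ d = (homogeneousSubmodule (Fin m) E d).map π.toLinearMap) →
  ∀ (X : Scheme.{0}) (f : X ⟶ Spec (CommRingCat.of E)) (i : X ≅ Proj ℬ),
    i.hom ≫ structureMorphism ℬ = f →
  ∃ (Y : Scheme.{0}) (g : Y ⟶ Spec (CommRingCat.of (𝓞 E))), IsRegularProperFlatModel f g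

/-- Over every number field `K` the form with the integral coefficients `a` defines a smooth
hypersurface with regular proper flat models over the ring of integers of `K`. -/
def IsGoodOverAllNumberFields {n d : ℕ} (a : Exponent (n + 3) d → ℤ) : Prop :=
  ∀ (K : Type) [Field K] [NumberField K], IsSmooth (form K a) ∧ HypersurfaceHasModel (form K a)

/-- For every number field `K`: if the form with the integral coefficients `a` has a good equation over
`K` at all primes over the prime numbers `p ≤ Y`, then it defines over `K` a smooth hypersurface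
with regular proper flat models over the ring of integers of `K`. -/
def IsGoodWhereverGoodUpTo (Y : ℕ) {n d : ℕ} (a : Exponent (n + 3) d → ℤ) : Prop :=
  ∀ (K : Type) [Field K] [NumberField K],
    (∀ (p : ℕ) (𝔭 : Ideal (𝓞 K)), p.Prime → p ≤ Y → 𝔭.IsPrime → (p : 𝓞 K) ∈ 𝔭 →
      HasGoodEquationAt 𝔭 (form K a)) →
    IsSmooth (form K a) ∧ HypersurfaceHasModel (form K a)

theorem HasGoodEquationAt.locAt {R K : Type} [CommRing R] [Field K] [Algebra R K] {𝔭 : Ideal R}
    {m : ℕ} {G : MvPolynomial (Fin (m + 2)) K} (h : HasGoodEquationAt 𝔭 G) :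
    Pool.Agent.U41.OD.LocAt 𝔭 G := by
  obtain ⟨H, l, T, T', hl, hT, hH, hreg⟩ := h
  refine ⟨H, l, T, T', hl, hT, hH, ?_⟩
  rcases hreg with h1 | h1
  · exact Or.inl (Pool.Agent.TH214.RM.Reg.crit h1)
  · exact Or.inr ⟨h1.two, h1.depth, h1.nondegenerate,
      fun s hs Q hQ hC hd => Or.inr (h1.regular s hs Q hQ hC hd)⟩

theorem model {K : Type} [Field K] [NumberField K] {n d : ℕ} (hd : 2 ≤ d)
    (G : MvPolynomial (Fin (n + 3)) K) (hG : G.IsHomogeneous d) (hsm : IsSmooth G)
    (hloc : Pool.Agent.U41.OD.LocNode (𝓞 K) G) : HypersurfaceHasModel G := by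
  intro B _ _ π hπ hker ℬ _ hℬ X f i hi
  exact Pool.Agent.U41.OD.model_ON Pool.Agent.U41.OD.gm (n := n + 1) (by omega) G d hd hG hsm
    hloc π hπ hker ℬ hℬ f i hi

theorem finite_bounded {n d : ℕ} (H : ℕ) :
    {a : Exponent n d → ℤ | ∀ α, |a α| ≤ H}.Finite := by
  have := Pool.Agent.U41.PH.finite_exps n d
  refine Set.Finite.subset (Set.Finite.pi' fun _ : Exponent n d =>
    Set.finite_Icc (-(H : ℤ)) (H : ℤ)) fun a ha α => ?_
  exact Set.mem_Icc.2 (abs_le.1 (ha α))

theorem result :
    (∀ n d : ℕ, 3 ≤ d → ∃ δ : ℝ, 0 < δ ∧ ∃ H₀ : ℕ, ∀ H ≥ H₀,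
      δ * (Set.ncard {a : Exponent (n + 3) d → ℤ | ∀ α, |a α| ≤ H} : ℝ) ≤
        Set.ncard {a : Exponent (n + 3) d → ℤ | (∀ α, |a α| ≤ H) ∧
          IsGoodOverAllNumberFields a}) ∧
    (∀ n d : ℕ, 3 ≤ d → ∀ ε : ℝ, 0 < ε → ∃ Y₀ : ℕ, ∀ Y ≥ Y₀,
      ∀ (M : ℕ) (b : Exponent (n + 3) d → ℤ), M ≠ 0 →
      (∀ p : ℕ, p.Prime → p ∣ M → p ≤ Y) →
      ∃ H₀ : ℕ, ∀ H ≥ H₀,
        (1 - ε) * (Set.ncard {y : Exponent (n + 3) d → ℤ | ∀ α, |y α| ≤ H} : ℝ) ≤
          Set.ncard {y : Exponent (n + 3) d → ℤ | (∀ α, |y α| ≤ H) ∧
            IsGoodWhereverGoodUpTo Y fun α => b α + M * y α}) := by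
  refine ⟨fun n d hd => ?_, fun n d hd ε hε => ?_⟩
  · obtain ⟨δ, hδ, H₀, h⟩ := Pool.Agent.U41.PH.proportionE Pool.Agent.U41.PH.fa1E
      Pool.Agent.U41.PH.BPE_ok (n + 1) d hd
    refine ⟨δ, hδ, H₀, fun H hH => (h H hH).trans ?_⟩
    rw [Nat.cast_le]
    refine Set.ncard_le_ncard ?_ ((finite_bounded H).subset fun a ha => ha.1)
    intro a ha
    refine ⟨ha.1, fun K _ _ => ?_⟩
    obtain ⟨h1, h2⟩ := ha.2 K
    exact ⟨h1, model (n := n) (by omega) _ (Pool.Agent.U41.PH.allForm_homE a) h1 h2⟩
  · obtain ⟨Y₀, h⟩ := Pool.Agent.U41.PH.str_allE Pool.Agent.U41.PH.fa1E (n + 1) d hd ε hε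
    refine ⟨Y₀, fun Y hY M b hM hMY => ?_⟩
    obtain ⟨H₀, h1⟩ := h Y hY M b hM hMY
    refine ⟨H₀, fun H hH => (h1 H hH).trans ?_⟩
    rw [Nat.cast_le]
    refine Set.ncard_le_ncard ?_ ((finite_bounded H).subset fun a ha => ha.1)
    intro y hy
    refine ⟨hy.1, fun K _ _ hloc => ?_⟩
    obtain ⟨h2, h3⟩ := hy.2 K fun p 𝔭 hp hpY hp' hpm => (hloc p 𝔭 hp hpY hp' hpm).locAt
    exact ⟨h2, model (n := n) (by omega) _
      (Pool.Agent.U41.PH.allForm_homE (fun α => b α + M * y α)) h2 h3⟩

end Pool.Agent.Results.MP_6a3dac_ag.AllNumberFields
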