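import Pool.Agent.U41.OD.Fin

/-!
MP_6a3dac_ag: regular proper flat models over the rings of integers of smooth projective
hypersurfaces over number fields which have double points, of any depth, in the fibres.

1. If for every prime `𝔭` of the number field the hypersurface has, in suitable coordinates over the
   field, an integral equation whose scheme is regular over `𝔭`, or regular over `𝔭` outside one
   rational point where it has an ordinary double point `π ^ k + q(y) + ... = 0`, `k ≥ 2`, `2 ∉ 𝔭`,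
   then it has a regular proper flat model over the ring of integers.
2. Generic pencils `G + c x_0 ^ d`, `c` an algebraic integer: there are a finite set `Z` and `N ≠ 0`
   such that for `c` outside of `Z` the condition of 1 at the primes containing `N` suffices for the
   existence of such a model; and if `c_0` satisfies the condition at these primes, then all `c`
   outside of `Z` in a residue class of `c_0` have such models. There is no condition on the
   discriminants of the members of the pencil.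
3. An explicit family: `c x_0 ^ d + x_0 ^ (d-1) x_1 + x_1 ^ (d-1) x_2 + ... + x_m ^ (d-1) x_(m+1) +
   b x_(m+1) ^ d = 0`, `d ≥ 3`, for all but finitely many multiples `c` of a constant `N ≠ 0`.
-/

set_option autoImplicit false

open AlgebraicGeometry CategoryTheory CategoryTheory.Limits MvPolynomial

open scoped NumberField

namespace Pool.Agent.Results.MP_6a3dac_ag.DoublePointFibres

/-- The polynomial in the variables `X j`, `j ≠ s`, obtained from `H` by setting `X s = 1`: the
equation of the hypersurface `H = 0` in the chart `X s ≠ 0` of the projective space over `R`. -/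
noncomputable def dehom {R : Type} [CommRing R] {m : ℕ} (s : Fin m) (H : MvPolynomial (Fin m) R) :
    MvPolynomial {j : Fin m // j ≠ s} R :=
  aeval (fun j => if h : j = s then 1 else X ⟨j, h⟩) H

/-- The ideal `Q` of the polynomial ring over `R` lies over `𝔭`. -/
def LiesAbove {R σ : Type} [CommRing R] (𝔭 : Ideal R) (Q : Ideal (MvPolynomial σ R)) : Prop :=
  ∀ r : R, C r ∈ Q ↔ r ∈ 𝔭

/-- For a prime `Q` of `A`, the element `f` is not in the square of the maximal ideal of the
localization of `A` at `Q`. -/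
def NotInSquare {A : Type} [CommRing A] (Q : Ideal A) (f : A) : Prop :=
  ∀ h, h ∉ Q → h * f ∉ Q ^ 2

/-- The scheme `H = 0` in the projective space over `R` is regular at its points over `𝔭` in the
chart `X s ≠ 0`: for every prime `Q` of the polynomial ring of the chart lying over `𝔭` and
containing the equation, the equation is not in the square of the maximal ideal of the localization
at `Q`. -/
def IsRegularInChart {R : Type} [CommRing R] (𝔭 : Ideal R) {m : ℕ} (H : MvPolynomial (Fin m) R)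
    (s : Fin m) : Prop :=
  ∀ Q : Ideal (MvPolynomial {j : Fin m // j ≠ s} R), Q.IsPrime →
    LiesAbove 𝔭 Q → dehom s H ∈ Q → NotInSquare Q (dehom s H)

/-- The scheme `H = 0` in the projective space over `R` is regular at its points over `𝔭`. -/
def IsRegularAt {R : Type} [CommRing R] (𝔭 : Ideal R) {m : ℕ} (H : MvPolynomial (Fin m) R) :
    Prop :=
  ∀ s : Fin m, IsRegularInChart 𝔭 H s

/-- The scheme `H = 0` in the projective space over `R`, with coordinates `X 0, ..., X m`, is
regular at its points over `𝔭` outside the point `(1 : 0 : ... : 0)`, where it has an ordinary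
double point: `2` is not in `𝔭`, and for the polynomial `f` obtained from `H` by setting `X 0 = 1`
there is `k ≥ 2` such that the constant coefficient of `f` is in `𝔭 ^ k` but not in `𝔭 ^ (k + 1)`,
the linear coefficients are in `𝔭 ^ k`, and the quadratic part of `f` is nondegenerate modulo `𝔭`:
every variable, multiplied by a constant outside of `𝔭`, is in the ideal generated by the partial
derivatives of the quadratic part. -/
structure HasDoublePointAt {R : Type} [CommRing R] (𝔭 : Ideal R) {m : ℕ}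
    (H : MvPolynomial (Fin (m + 1)) R) : Prop where
  two : (2 : R) ∉ 𝔭
  depth : ∃ k, 2 ≤ k ∧ constantCoeff (dehom 0 H) ∈ 𝔭 ^ k ∧
    constantCoeff (dehom 0 H) ∉ 𝔭 ^ (k + 1) ∧
    ∀ l, coeff (Finsupp.single l 1) (dehom 0 H) ∈ 𝔭 ^ k
  nondegenerate : ∀ l, ∃ δ : R, δ ∉ 𝔭 ∧ C δ * X l ∈
    Ideal.span (Set.range fun j => pderiv j (homogeneousComponent 2 (dehom 0 H)))
  regular : ∀ s, s ≠ 0 → IsRegularInChart 𝔭 H s

/-- The partial derivatives of `G` have no common zero (over an algebraic closure) but the origin: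
every variable has a power in the ideal they generate. -/
def IsSmooth {K : Type} [Field K] {m : ℕ} (G : MvPolynomial (Fin m) K) : Prop :=
  ∀ i, X i ∈ (Ideal.span (Set.range fun j => pderiv j G)).radical

/-- `H` is obtained from `G` by the linear change of coordinates `T` and multiplication with the
scalar `l`. -/
def IsEquation {R K : Type} [CommRing R] [Field K] [Algebra R K] {m : ℕ}
    (G : MvPolynomial (Fin m) K) (H : MvPolynomial (Fin m) R) (l : K)
    (T : Matrix (Fin m) (Fin m) K) : Prop :=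
  map (algebraMap R K) H = C l * aeval (fun i => ∑ j, C (T i j) * X j) G

/-- A linear change of coordinates over the number field and a scalar turn `G` into a form with
integral coefficients whose hypersurface is regular at its points over `𝔭`, or is regular there
outside the point `(1 : 0 : ... : 0)`, where it has an ordinary double point. -/
def HasGoodEquationAt {K : Type} [Field K] (𝔭 : Ideal (𝓞 K)) {m : ℕ}
    (G : MvPolynomial (Fin (m + 1)) K) : Prop :=
  ∃ (H : MvPolynomial (Fin (m + 1)) (𝓞 K)) (l : K) (T T' : Matrix (Fin (m + 1)) (Fin (m + 1)) K),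
    l ≠ 0 ∧ T * T' = 1 ∧ IsEquation G H l T ∧ (IsRegularAt 𝔭 H ∨ HasDoublePointAt 𝔭 H)

/-- The form over `K` given by a form with integral coefficients. -/
noncomputable def overK {K : Type} [Field K] {m : ℕ} (F : MvPolynomial (Fin m) (𝓞 K)) :
    MvPolynomial (Fin m) K :=
  map (algebraMap (𝓞 K) K) F

/-- The member `G + c x_0 ^ d` of the pencil generated by `G` and `x_0 ^ d`. -/
noncomputable def member {R : Type} [CommRing R] {m : ℕ} (d : ℕ)
    (G : MvPolynomial (Fin (m + 1)) R) (c : R) : MvPolynomial (Fin (m + 1)) R :=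
  G + C c * X 0 ^ d

/-- The Hessian matrix of `g`. -/
noncomputable def hessian {R σ : Type} [CommRing R] (g : MvPolynomial σ R) :
    Matrix σ σ (MvPolynomial σ R) :=
  Matrix.of fun i j => pderiv i (pderiv j g)

/-- The conditions on the polynomial `g` obtained from `G` by setting `X 0 = 1`, and on `G`, over an
algebraic closure: two critical points of `g` with the same value of `g` coincide; the critical
points of `g` are nondegenerate; and the section `X 0 = 0` of the hypersurface `G = 0` is smooth (the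
partial derivatives of `G` at the other variables have no common zero but the origin on it). -/
structure IsGeneric {K : Type} [Field K] {m : ℕ} (G : MvPolynomial (Fin (m + 1)) K) : Prop where
  values : ∀ l : {j : Fin (m + 1) // j ≠ 0},
    rename Sum.inl (X l : MvPolynomial {j : Fin (m + 1) // j ≠ 0} K) -
        rename Sum.inr (X l : MvPolynomial {j : Fin (m + 1) // j ≠ 0} K) ∈
      (Ideal.span (insert (rename Sum.inl (dehom 0 G) - rename Sum.inr (dehom 0 G))
        ((Set.range fun j => rename Sum.inl (pderiv j (dehom 0 G))) ∪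
          (Set.range fun j => rename Sum.inr (pderiv j (dehom 0 G)))) :
        Set (MvPolynomial ({j : Fin (m + 1) // j ≠ 0} ⊕ {j : Fin (m + 1) // j ≠ 0}) K))).radical
  nondegenerate : (1 : MvPolynomial {j : Fin (m + 1) // j ≠ 0} K) ∈
    Ideal.span (insert (hessian (dehom 0 G)).det (Set.range fun j => pderiv j (dehom 0 G)))
  smooth : ∀ i : Fin (m + 1), i ≠ 0 → X i ∈
    (Ideal.span (insert (X 0) (insert G (Set.range fun j : {j : Fin (m + 1) // j ≠ 0} =>
      pderiv (j : Fin (m + 1)) G)))).radical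

/-- The form `x_0 ^ (d-1) x_1 + x_1 ^ (d-1) x_2 + ... + x_m ^ (d-1) x_(m+1) + b x_(m+1) ^ d`. -/
noncomputable def chain {R : Type} [CommRing R] (m d : ℕ) (b : R) :
    MvPolynomial (Fin (m + 2)) R :=
  ∑ i : Fin (m + 1), X i.castSucc ^ (d - 1) * X i.succ + C b * X (Fin.last (m + 1)) ^ d

/-- The conditions on the coefficient `b`. -/
def IsAdmissibleCoefficient {K : Type} [Field K] (d : ℕ) (b : 𝓞 K) : Prop :=
  b ≠ 0 ∧ ∀ 𝔭 : Ideal (𝓞 K), 𝔭.IsPrime → 𝔭 ≠ ⊥ → b ∉ 𝔭 ^ 2 ∧
    ∀ p : ℕ, p.Prime → p ∣ d - 1 → (p : 𝓞 K) ∈ 𝔭 → ∀ e : 𝓞 K, b + e ^ p ∉ 𝔭 ^ 2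

/-- The dimension of the local ring `A` equals the dimension of its cotangent space. -/
def HasRegularDimension (A : Type) [CommRing A] [IsLocalRing A] : Prop :=
  ringKrullDim A = (((Module.finrank (IsLocalRing.ResidueField A)
    (IsLocalRing.CotangentSpace A) : ℕ) : ℕ∞) : WithBot ℕ∞)

/-- The generic fibre of `g` is isomorphic over `E` to `X` with the morphism `f`. -/
def HasGenericFibre {E : Type} [Field E] {X Y : Scheme.{0}}
    (f : X ⟶ Spec (CommRingCat.of E)) (g : Y ⟶ Spec (CommRingCat.of (𝓞 E))) : Prop :=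
  ∃ e : pullback g (Spec.map (CommRingCat.ofHom (algebraMap (𝓞 E) E))) ≅ X,
    e.hom ≫ f = pullback.snd g (Spec.map (CommRingCat.ofHom (algebraMap (𝓞 E) E)))

/-- The morphism `g` from `Y` is a regular proper flat model over the ring of integers of `E` of `X`
with the morphism `f` to `Spec E`. -/
def IsRegularProperFlatModel {E : Type} [Field E] {X Y : Scheme.{0}}
    (f : X ⟶ Spec (CommRingCat.of E)) (g : Y ⟶ Spec (CommRingCat.of (𝓞 E))) : Prop :=
  IsProper g ∧ Flat g ∧ (∀ y : Y, HasRegularDimension (Y.presheaf.stalk y)) ∧ HasGenericFibre f g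

/-- The structure morphism of `Proj ℬ` over `E`. -/
noncomputable def structureMorphism {E B : Type} [Field E] [CommRing B] [Algebra E B]
    (ℬ : ℕ → Submodule E B) [GradedAlgebra ℬ] : Proj ℬ ⟶ Spec (CommRingCat.of E) :=
  Proj.toSpecZero ℬ ≫ Spec.map (CommRingCat.ofHom (algebraMap E (ℬ 0)))

/-- Every scheme `X` over `E` isomorphic over `E` to the hypersurface `Proj (E[X] / (G))` has a
regular proper flat model over the ring of integers of `E`. -/
def HypersurfaceHasModel {E : Type} [Field E] {m : ℕ} (G : MvPolynomial (Fin m) E) : Prop :=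
  ∀ (B : Type) [CommRing B] [Algebra E B]
    (π : MvPolynomial (Fin m) E →ₐ[E] B), Function.Surjective π →
    RingHom.ker π = Ideal.span {G} →
  ∀ (ℬ : ℕ → Submodule E B) [GradedAlgebra ℬ],
    (∀ d, ℬ d = (homogeneousSubmodule (Fin m) E d).map π.toLinearMap) →
  ∀ (X : Scheme.{0}) (f : X ⟶ Spec (CommRingCat.of E)) (i : X ≅ Proj ℬ),
    i.hom ≫ structureMorphism ℬ = f →
  ∃ (Y : Scheme.{0}) (g : Y ⟶ Spec (CommRingCat.of (𝓞 E))), IsRegularProperFlatModel f g

theorem HasGoodEquationAt.locAt {K : Type} [Field K] {𝔭 : Ideal (𝓞 K)} {m : ℕ}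
    {G : MvPolynomial (Fin (m + 2)) K} (h : HasGoodEquationAt 𝔭 G) :
    Pool.Agent.U41.OD.LocAt 𝔭 G := by
  obtain ⟨H, l, T, T', hl, hT, hH, hreg⟩ := h
  refine ⟨H, l, T, T', hl, hT, hH, ?_⟩
  rcases hreg with h1 | h1
  · exact Or.inl (Pool.Agent.TH214.RM.Reg.crit h1)
  · exact Or.inr ⟨h1.two, h1.depth, h1.nondegenerate,
      fun s hs Q hQ hC hd => Or.inr (h1.regular s hs Q hQ hC hd)⟩

theorem model {K : Type} [Field K] [NumberField K] {n d : ℕ} (hd : 2 ≤ d)
    (G : MvPolynomial (Fin (n + 3)) K) (hG : G.IsHomogeneous d) (hsm : IsSmooth G)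
    (hloc : Pool.Agent.U41.OD.LocNode (𝓞 K) G) : HypersurfaceHasModel G := by
  intro B _ _ π hπ hker ℬ _ hℬ X f i hi
  exact Pool.Agent.U41.OD.model_ON Pool.Agent.U41.OD.gm (n := n + 1) (by omega) G d hd hG hsm hloc
    π hπ hker ℬ hℬ f i hi

theorem result :
    (∀ (K : Type) [Field K] [NumberField K] (n d : ℕ), 2 ≤ d →
      ∀ G : MvPolynomial (Fin (n + 3)) K, G.IsHomogeneous d → IsSmooth G →
      (∀ 𝔭 : Ideal (𝓞 K), 𝔭.IsPrime → 𝔭 ≠ ⊥ → HasGoodEquationAt 𝔭 G) →
      HypersurfaceHasModel G) ∧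
    (∀ (K : Type) [Field K] [NumberField K] (n d : ℕ), 2 ≤ d →
      ∀ G : MvPolynomial (Fin (n + 3)) (𝓞 K), G.IsHomogeneous d → IsGeneric (overK G) →
      ∃ N : 𝓞 K, N ≠ 0 ∧ ∃ Z : Set (𝓞 K), Z.Finite ∧
        (∀ c, c ∉ Z → (∀ 𝔭 : Ideal (𝓞 K), 𝔭.IsPrime → 𝔭 ≠ ⊥ → N ∈ 𝔭 →
          HasGoodEquationAt 𝔭 (overK (member d G c))) →
          HypersurfaceHasModel (overK (member d G c))) ∧
        ∀ c₀, (∀ 𝔭 : Ideal (𝓞 K), 𝔭.IsPrime → 𝔭 ≠ ⊥ → N ∈ 𝔭 →
          HasGoodEquationAt 𝔭 (overK (member d G c₀))) →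
          ∃ N' : 𝓞 K, N' ≠ 0 ∧ ∀ c, c ∉ Z → N' ∣ c - c₀ →
            HypersurfaceHasModel (overK (member d G c))) ∧
    (∀ (K : Type) [Field K] [CharZero K] (m d : ℕ), 3 ≤ d → ∀ b : K, b ≠ 0 →
      IsGeneric (chain m d b)) ∧
    (∀ (K : Type) [Field K] [NumberField K] (n d : ℕ), 3 ≤ d →
      ∀ b : 𝓞 K, IsAdmissibleCoefficient d b →
      ∃ N : 𝓞 K, N ≠ 0 ∧ ∃ Z : Set (𝓞 K), Z.Finite ∧ ∀ c, c ∉ Z → N ∣ c →
        HypersurfaceHasModel (overK (member d (chain (n + 1) d b) c))) ∧
    (∀ d n : ℕ, 3 ≤ d → Squarefree n → (∀ p : ℕ, p.Prime → p ∣ d - 1 → p ∣ n) →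
      IsAdmissibleCoefficient (K := ℚ) d n) := by
  refine ⟨?_, ?_, ?_, ?_, ?_⟩
  · intro K _ _ n d hd G hG hsm hloc
    exact model hd G hG hsm fun 𝔭 hp h0 => (hloc 𝔭 hp h0).locAt
  · intro K _ _ n d hd G hG hgen
    obtain ⟨N, hN, Z, hZ, h⟩ := Pool.Agent.U41.OD.pencil_both Pool.Agent.U41.OD.pen
      Pool.Agent.U41.OD.FI_ok Pool.Agent.U41.OD.CL_ok Pool.Agent.U41.OD.SM_ok
      Pool.Agent.U41.OD.PS_ok hd G hG ⟨hgen.values, hgen.nondegenerate, hgen.smooth⟩
    refine ⟨N, hN, Z, hZ, fun c hc hloc => ?_, fun c₀ hc₀ => ?_⟩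
    · obtain ⟨h1, h2⟩ := h.1 c hc
      exact model hd _ ((Pool.Agent.U41.OD.member_hom hG c).map _) h1
        (h2 fun 𝔭 hp h0 hN𝔭 => (hloc 𝔭 hp h0 hN𝔭).locAt)
    · obtain ⟨N', hN', h1⟩ := h.2 c₀ fun 𝔭 hp h0 hN𝔭 => (hc₀ 𝔭 hp h0 hN𝔭).locAt
      refine ⟨N', hN', fun c hc hdvd => ?_⟩
      obtain ⟨h2, h3⟩ := h1 c hc hdvd
      exact model hd _ ((Pool.Agent.U41.OD.member_hom hG c).map _) h2 h3
  · intro K _ _ m d hd b hb
    have h1 := Pool.Agent.U41.OD.chain_generic m d hd b hb
    exact ⟨h1.sep, h1.nondeg, h1.sect⟩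
  · rintro K _ _ n d hd b ⟨hb, hb2⟩
    obtain ⟨N, hN, Z, hZ, h⟩ := Pool.Agent.U41.OD.chain_family (n + 1) d hd b hb hb2
    refine ⟨N, hN, Z, hZ, fun c hc hdvd => ?_⟩
    obtain ⟨h1, h2⟩ := h c hc hdvd
    exact model (by omega) _ ((Pool.Agent.U41.OD.member_hom
      (Pool.Agent.U41.OD.chainF_hom (n + 1) d hd b) c).map _) h1 h2
  · intro d n hd hn hdn
    refine ⟨fun h => hn.ne_zero (Nat.cast_eq_zero.1 h), fun 𝔭 hp h0 =>
      ⟨Pool.Agent.TH214.RM.rat_notMem_sq n hn 𝔭 hp, fun p hp' hpd hp𝔭 =>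
        Pool.Agent.TH214.RM.rat_add_pow_notMem n hn 𝔭 hp p hp' (hdn p hp' hpd) hp𝔭⟩⟩

end Pool.Agent.Results.MP_6a3dac_ag.DoublePointFibres
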