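import Pool.Agent.U426.PA.G

/-!
MP_6a3dac_ag: proper flat models which are regular at the centres of finitely many points with
values in arbitrary discretely valued fields of mixed characteristic.

Let `E` be a number field, `X` an integral projective scheme over `E` with regular local rings (for
example, smooth) of any dimension, and let `ψ i`, for `i < n`, be points of `X` with values in fields
`L i` of characteristic zero, with discrete valuation rings `V i` of positive residue
characteristics. The fields `L i`, their transcendence degrees, the residue fields of `V i` and the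
ramification indices are arbitrary, and the images of the `ψ i` are arbitrary points of `X`. There
is an integral proper flat model `Y` of `X` over the ring of integers of `E` such that all `ψ i`
extend to points of `Y` with values in `V i`, and `Y` is regular at the images of the closed points.

The closures of the centres are blown up. A blowing-up in the closure of a centre can destroy the
regularity at other centres in this closure. The proof is an induction on the number of the
specializations between the centres; for a fixed set of specializations the centres are treated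
from the most general ones to the most special ones.
-/

set_option autoImplicit false

open AlgebraicGeometry CategoryTheory CategoryTheory.Limits NumberField

namespace Pool.Agent.Results.MP_6a3dac_ag.FiniteTraits

/-- `X` with the morphism `f` to `Spec E` is projective over `E`: it is `Proj` of a graded
`E`-algebra with degree zero part `E`, generated by finitely many elements of degree one. -/
def IsProjectiveOver {E : Type} [Field E] {X : Scheme.{0}} (f : X ⟶ Spec (CommRingCat.of E)) :
    Prop :=
  ∃ (A : Type) (_ : CommRing A) (_ : Algebra E A) (𝒜 : ℕ → Submodule E A) (_ : GradedAlgebra 𝒜),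
    (∀ a ∈ 𝒜 0, ∃ q : E, algebraMap E A q = a) ∧
    (∃ s : Finset A, (∀ a ∈ s, a ∈ 𝒜 1) ∧ Algebra.adjoin E (s : Set A) = ⊤) ∧
    ∃ i : X ≅ Proj 𝒜,
      i.hom ≫ Proj.toSpecZero 𝒜 ≫ Spec.map (CommRingCat.ofHom (algebraMap E (𝒜 0))) = f

theorem result :
    ∀ (E : Type) [Field E] [NumberField E] (X : Scheme.{0}) (f : X ⟶ Spec (CommRingCat.of E)),
      IsIntegral X → IsProjectiveOver f →
      (∀ x : X, IsRegularLocalRing (X.presheaf.stalk x)) →
      ∀ (n : ℕ) (L : Fin n → Type) [∀ i, Field (L i)] [∀ i, CharZero (L i)]
        (V : ∀ i, ValuationSubring (L i)) [∀ i, IsDiscreteValuationRing (V i)]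
        (p : Fin n → ℕ), (∀ i, (p i).Prime) → (∀ i, ¬ IsUnit (p i : V i)) →
      ∀ ψ : ∀ i, Spec (CommRingCat.of (L i)) ⟶ X,
      ∃ (Y : Scheme.{0}) (g : Y ⟶ Spec (CommRingCat.of (𝓞 E)))
        (e : pullback g (Spec.map (CommRingCat.ofHom (algebraMap (𝓞 E) E))) ≅ X),
        IsIntegral Y ∧ IsProper g ∧ Flat g ∧
        e.hom ≫ f = pullback.snd g (Spec.map (CommRingCat.ofHom (algebraMap (𝓞 E) E))) ∧
        ∀ i, ∃ ψ' : Spec (CommRingCat.of (V i)) ⟶ Y,
          Spec.map (CommRingCat.ofHom (V i).subtype) ≫ ψ' = ψ i ≫ e.inv ≫ pullback.fst _ _ ∧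
          IsRegularLocalRing (Y.presheaf.stalk (ψ' (IsLocalRing.closedPoint (V i)))) := by
  intro E _ _ X f hX hproj hreg n L _ _ V hV p hp hpu ψ
  obtain ⟨A, _, _, 𝒜, _, h0, ⟨s, hs, hgen⟩, i, hif⟩ := hproj
  obtain ⟨F, _, _, _, _, M, g, hg, hg0, e, hM, he, hall⟩ :=
    Pool.Agent.U426.PA.proj_f (O := 𝓞 E) (fun o => RingOfIntegers.isIntegral o) f hreg 𝒜
      h0 s hs hgen i hif L V hV (fun i => ⟨p i, (hp i).ne_zero,
        (Pool.Agent.U426.PA.nat_lt_iff (V i) (p i)).2 ((IsLocalRing.mem_maximalIdeal _).2 (hpu i))⟩)
      ψ
  have hinj : Function.Injective (algebraMap (𝓞 E) F) := by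
    rw [IsScalarTower.algebraMap_eq (𝓞 E) E F]
    exact (algebraMap E F).injective.comp (IsFractionRing.injective (𝓞 E) E)
  exact ⟨_, Pool.Agent.H968R2.Quad.modelMap M, e,
    Pool.Agent.H968R2.Quad.model_integral M g hg hg0,
    Pool.Agent.H968R2.Quad.modelMap_isProper M hinj hM,
    Pool.Agent.TH188.ARC.modelMap_flat hinj M g hg hg0, he, hall⟩

end Pool.Agent.Results.MP_6a3dac_ag.FiniteTraits
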