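import Pool.Agent.U426.PA.C

/-!
MP_6a3dac_ag: proper flat models which are regular at the centres of all the points with values in
local fields of bounded degree, for all the primes at once.

Let `E` be a number field, `X` an integral projective scheme over `E` with regular local rings (for
example, smooth), and `C` a function on the primes. There is an integral proper flat model `Y` of
`X` over the ring of integers of `E` such that the following holds for every prime `p` and every
discrete valuation ring `V` of characteristic zero, in which `p` is not invertible and such that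
`V / pV` has at most `C p` elements: every point of `X` with values in the fraction field `L` of `V`
extends to a point of `Y` with values in `V`, and `Y` is regular at the image of the closed point.

If `V` is the valuation ring of a finite extension `L` of `ℚ_p`, then `V / pV` has `p ^ [L : ℚ_p]`
elements. So (with `C p = p ^ d`) one model `Y` is regular at the centres of all the points of `X`
with values in the extensions of degree at most `d` of all the fields `ℚ_p`.

The proof is that of MP_6a3dac_ag.BoundedDegree (the case of the points with values in number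
fields): a uniform bound for the number of the quadratic transforms, and finitely many centres.
-/

set_option autoImplicit false

open AlgebraicGeometry CategoryTheory CategoryTheory.Limits NumberField

namespace Pool.Agent.Results.MP_6a3dac_ag.LocalPoints

/-- `X` with the morphism `f` to `Spec E` is projective over `E`: it is `Proj` of a graded
`E`-algebra with degree zero part `E`, generated by finitely many elements of degree one. -/
def IsProjectiveOver {E : Type} [Field E] {X : Scheme.{0}} (f : X ⟶ Spec (CommRingCat.of E)) :
    Prop :=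
  ∃ (A : Type) (_ : CommRing A) (_ : Algebra E A) (𝒜 : ℕ → Submodule E A) (_ : GradedAlgebra 𝒜),
    (∀ a ∈ 𝒜 0, ∃ q : E, algebraMap E A q = a) ∧
    (∃ s : Finset A, (∀ a ∈ s, a ∈ 𝒜 1) ∧ Algebra.adjoin E (s : Set A) = ⊤) ∧
    ∃ i : X ≅ Proj 𝒜,
      i.hom ≫ Proj.toSpecZero 𝒜 ≫ Spec.map (CommRingCat.ofHom (algebraMap E (𝒜 0))) = f

theorem result :
    ∀ (E : Type) [Field E] [NumberField E] (X : Scheme.{0}) (f : X ⟶ Spec (CommRingCat.of E)),
      IsIntegral X → IsProjectiveOver f →
      (∀ x : X, IsRegularLocalRing (X.presheaf.stalk x)) →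
      ∀ C : ℕ → ℕ,
      ∃ (Y : Scheme.{0}) (g : Y ⟶ Spec (CommRingCat.of (𝓞 E)))
        (e : pullback g (Spec.map (CommRingCat.ofHom (algebraMap (𝓞 E) E))) ≅ X),
        IsIntegral Y ∧ IsProper g ∧ Flat g ∧
        e.hom ≫ f = pullback.snd g (Spec.map (CommRingCat.ofHom (algebraMap (𝓞 E) E))) ∧
        ∀ (L : Type) [Field L] [CharZero L] (V : ValuationSubring L) [IsDiscreteValuationRing V]
          (p : ℕ), p.Prime → ¬ IsUnit (p : V) → Finite (V ⧸ Ideal.span {(p : V)}) →
          Nat.card (V ⧸ Ideal.span {(p : V)}) ≤ C p →
          ∀ ψ : Spec (CommRingCat.of L) ⟶ X, ∃ ψ' : Spec (CommRingCat.of V) ⟶ Y,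
            Spec.map (CommRingCat.ofHom V.subtype) ≫ ψ' = ψ ≫ e.inv ≫ pullback.fst _ _ ∧
            IsRegularLocalRing (Y.presheaf.stalk (ψ' (IsLocalRing.closedPoint V))) := by
  intro E _ _ X f hX hproj hreg C
  obtain ⟨A, _, _, 𝒜, _, h0, ⟨s, hs, hgen⟩, i, hif⟩ := hproj
  obtain ⟨F, _, _, _, _, M, g, hg, hg0, e, hM, he, hall, -⟩ :=
    Pool.Agent.U426.PA.proj_b (O := 𝓞 E) (fun o => RingOfIntegers.isIntegral o) f hreg 𝒜
      h0 s hs hgen i hif (Pool.Agent.U426.PA.bnd C)
  have hinj : Function.Injective (algebraMap (𝓞 E) F) := by
    rw [IsScalarTower.algebraMap_eq (𝓞 E) E F]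
    exact (algebraMap E F).injective.comp (IsFractionRing.injective (𝓞 E) E)
  refine ⟨_, Pool.Agent.H968R2.Quad.modelMap M, e,
    Pool.Agent.H968R2.Quad.model_integral M g hg hg0,
    Pool.Agent.H968R2.Quad.modelMap_isProper M hinj hM,
    Pool.Agent.TH188.ARC.modelMap_flat hinj M g hg hg0, he, ?_⟩
  intro L _ _ V _ p hp hpu hfin hcard ψ
  exact hall L V (Pool.Agent.U426.PA.bd_of_card V C hp hpu hfin hcard) ψ

end Pool.Agent.Results.MP_6a3dac_ag.LocalPoints
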