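import Pool.Agent.N98.SS.Mult
import Pool.Agent.N98.SS.Gener2
import Pool.Agent.U186.ASC.Adic

/-!
MP_6a3dac_ag: proper flat models over the ring of integers which are regular at the centres of
arbitrary valuations over finitely many primes, for the loci where the rank of a matrix drops, in all
dimensions.

Let `k` be a number field with the ring of integers `O`, and let `𝒳 = Proj O[W]` be an integral
projective flat `O`-scheme with the generic fibre `X`, the function field `F` and the homogeneous
coordinates `W ⊆ F`. Let `k ⊆ E ⊆ F` be a subfield (for example, `E = k`), with a noetherian ring `R`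
with the field of fractions `E` which contains `O` and lies in the coordinate rings of the charts of
`𝒳` (for example, `R = O`). Suppose that `F` is the function field of an irreducible component of the
locus in the affine space over `E`, with the coordinates `t e`, where the columns of the matrix
`M + ∑ e, t e ^ m e • u e ⊗ v e` are linearly dependent, with `M`, `u e`, `v e` over `E`; let `w` be a
kernel vector over `F` with a coordinate one. Suppose that the homogeneous coordinates of `𝒳` are
monomials: products of powers of elements of `E`, of the `t e` and of linear combinations over `E` of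
the `w j` and `t e ^ m e * (v e ⬝ w)`, and that on every chart the `t e` and `w j` are quotients of
regular functions, the denominators being monomials. Let `S` be a finite set of prime numbers
which do not divide the `m e`. For all `p ∈ S` let `V_p` be a valuation ring of `F`, of any rank, such
that `p` is topologically nilpotent: `F = V_p[1/p]` and `|p| < 1`, and suppose that `R` is a Dedekind
ring or that `V_p ∩ E` is log uniformizable on `Spec R` (this is known if `R` is quasi-excellent of
dimension at most `3`, by Cossart and Piltant). So `V_p` is an arbitrary point of the adic space of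
`X` over a `p`-adic place of `k` which lies over the generic point of `X`.

Then a blowing-up `𝒳'` of `𝒳` in a closed subscheme of the union of the fibres over the primes
`p ∈ S`, which is a projective flat model of the same generic fibre `X`, is regular at the centres of
all `V_p`, and at the centres of all valuation rings which contain one of the `V_p`; moreover, the
fibre over `p` is a divisor with normal crossings there. There is no condition on the reduction of
`X` at `p`, and no condition on the rank, the defect or the residue fields of the valuations. (If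
`X` is singular then the theorem concerns the local rings of models of `X` all the same.)

Example: `X` is the closure in the projective space over `k`, with the coordinates `1`, `t e`, `w j`,
of the incidence variety of the points `t` of a component of the hypersurface
`det (M + ∑ e, t e ^ m e • u e ⊗ v e) = 0` (graph and configuration hypersurfaces, sparse generic
determinants with constants) and their kernel vectors `w`, `w i = 1`, and `𝒳` is its closure over
`O`; this is birational to the component itself. Every chart satisfies the conditions, for all `V_p`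
over all `p` prime to the `m e`, also if all entries are divisible by high powers of `p`.

The proof combines the stages of MP_1a953e_ag.RankDropAdicPoints with the blowings-up in vertical
centres of MP_602153_ag.BoundedDegreeAtValuations (helper98).

helper186.
-/

set_option autoImplicit false

universe u

namespace Pool.Agent.Results.MP_6a3dac_ag.RankDropAtValuations

open IsLocalRing Pool.Agent.W418.LU2 Pool.Agent.TH188.QS NumberField

/-- The local ring of `Spec B` at the centre of the valuation ring `V`: the fractions of elements
of `B` whose denominators are units of `V`. -/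
def centreRing {F : Type u} [Field F] (V : ValuationSubring F) (B : Subring F) : Subring F where
  carrier := {x | ∃ a ∈ B, ∃ b ∈ B, b ≠ 0 ∧ b⁻¹ ∈ V ∧ x = a * b⁻¹}
  mul_mem' := (lo V.toSubring B).mul_mem'
  one_mem' := (lo V.toSubring B).one_mem'
  add_mem' := (lo V.toSubring B).add_mem'
  zero_mem' := (lo V.toSubring B).zero_mem'
  neg_mem' := (lo V.toSubring B).neg_mem'

/-- The coordinate ring `O[v / w : v ∈ W]` of the chart `w ≠ 0` of the projective `O`-scheme
`Proj O[W]` with the function field `K` and the homogeneous coordinates `W ⊆ K`. -/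
def chart {K : Type u} [Field K] (O : Subring K) (W : Set K) (w : K) : Subring K :=
  Subring.closure ((O : Set K) ∪ {z | ∃ v ∈ W, z = v / w})

/-- `Y` is a finite set of forms of some degree `d` over `O` in the homogeneous coordinates `W`,
and `N ^ n` times any form of degree `d` is a linear combination of the forms in `Y`, for some `n`.
So the closed subscheme of `Proj O[W]` defined by the forms in `Y` is contained in the zero set of
`N`. -/
def IsVerticalCentre {K : Type u} [Field K] (O : Subring K) (N : K) (W Y : Set K) : Prop :=
  Y.Finite ∧ ∃ d n : ℕ, Y ⊆ ((Submodule.span O W) ^ d : Submodule O K) ∧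
    ∀ z ∈ (Submodule.span O W) ^ d, N ^ n * z ∈ Submodule.span O Y

/-- The homogeneous coordinates of the blowing-up of `Proj O[W]` in the closed subscheme which is
defined by the forms in `Y`. -/
def blowUpCoordinates {K : Type u} [Field K] (W Y : Set K) : Set K :=
  {z | ∃ y ∈ Y, ∃ v ∈ W, z = y * v}

/-- `P` is a regular local ring, and `p` is a unit times a product of powers of elements of a regular
system of parameters `x`. -/
def HasNormalCrossings {K : Type u} [Field K] (P : Subring K) (p : K) : Prop :=
  ∃ (_ : IsRegularLocalRing P) (n : ℕ) (x : Fin n → P) (e : Fin n → ℕ) (c : Pˣ),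
    Ideal.span (Set.range x) = IsLocalRing.maximalIdeal P ∧ ringKrullDim P = n ∧
      p = ((c : P) : K) * ∏ i, (x i : K) ^ e i

/-- The projective scheme `Proj O[W]` is regular at the centre of `V`, which lies in the chart
`w ≠ 0`, and the zero set of `p` is a divisor with normal crossings there. -/
def IsRegularAtCentre {K : Type u} [Field K] (V : ValuationSubring K) (O : Subring K) (W : Set K)
    (p : K) : Prop :=
  ∃ w ∈ W, w ≠ 0 ∧ (∀ v ∈ W, v / w ∈ V) ∧ HasNormalCrossings (centreRing V (chart O W w)) p

/-- The chart `A[I / f]` of the blowing-up of `Spec A` in the ideal `I`. -/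
def blowUpChart {F : Type u} [Field F] (A : Subring F) (I : Ideal A) (f : A) : Subring F :=
  Subring.closure ((A : Set F) ∪ {z | ∃ a ∈ I, z = (a : F) / (f : F)})

/-- `P` is a regular local ring and the zero set of `J` is a divisor with strict normal
crossings: the radical of `J` is generated by the product of some of the elements of a regular
system of parameters. -/
def RegularPair (P : Type u) [CommRing P] (J : Ideal P) : Prop :=
  ∃ (_ : IsRegularLocalRing P) (n : ℕ) (x : Fin n → P) (s : Finset (Fin n)),
    Ideal.span (Set.range x) = IsLocalRing.maximalIdeal P ∧ ringKrullDim P = n ∧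
      J.radical = Ideal.span {∏ i ∈ s, x i}

/-- The blowing-up of `X = Spec A` in `V(I)` is a log desingularization of `(X, V(D))` along the
valuation ring `V`. Here `f ∈ I` generates `I V`, the centre of the lift of the valuation lies in
the chart `Spec A[I / f]`, and the ideal `D I` defines the preimage of `V(D) ∪ V(I)`. -/
def IsLogDesingularization {F : Type u} [Field F] (V : ValuationSubring F) (A : Subring F)
    (D I : Ideal A) : Prop :=
  ∃ f ∈ I, f ≠ 0 ∧ (∀ a ∈ I, (a : F) / (f : F) ∈ V) ∧
    RegularPair (centreRing V (blowUpChart A I f))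
      (Ideal.span {z | ∃ a ∈ D * I, (z : F) = (a : F)})

/-- The valuation ring `V` is log uniformizable on `Spec A`. (The blowings-up in the ideals
`I₀ * I₁` are cofinal: the blowing-up in `I₀ * I₁` factors through the blowing-up in `I₀`.) -/
def IsLogUniformizable {F : Type u} [Field F] (V : ValuationSubring F) (A : Subring F) : Prop :=
  ∀ D I₀ : Ideal A, D ≠ ⊥ → I₀ ≠ ⊥ →
    ∃ I₁ : Ideal A, I₁ ≠ ⊥ ∧ IsLogDesingularization V A D (I₀ * I₁)

/-- The `a × b` matrix `M + ∑ e, x e • u e ⊗ v e` over the `E`-algebra `S`. -/
noncomputable def pencil {E S : Type u} [CommRing E] [CommRing S] [Algebra E S] {a b N : ℕ}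
    (M : Matrix (Fin a) (Fin b) E) (u : Fin N → Fin a → E) (v : Fin N → Fin b → E)
    (x : Fin N → S) : Matrix (Fin a) (Fin b) S :=
  Matrix.of fun i j => algebraMap E S (M i j) + ∑ e, x e * algebraMap E S (u e i * v e j)

/-- The ideal generated by the minors of size `b` of an `a × b` matrix. Its zeros are the points at
which the rank is less than `b`. -/
noncomputable def columnMinors {S : Type u} [CommRing S] {a b : ℕ}
    (B : Matrix (Fin a) (Fin b) S) : Ideal S :=
  Ideal.span (Set.range fun f : Fin b → Fin a => (B.submatrix f id).det)

/-- `K` is the function field of an irreducible component of the closed subset of the affine space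
over `E` at which the rank of the matrix `M + ∑ e, X e ^ m e • u e ⊗ v e` (whose rank over
`E[X 0, ..., X (N - 1)]` is `b`) is less than `b`, and `t e ∈ K` are the coordinate functions; `w` is
a vector over `K`, with a coordinate one, in the kernel of `M + ∑ e, t e ^ m e • u e ⊗ v e`. -/
def IsRankDropField {E K : Type u} [Field E] [Field K] [Algebra E K] {a b N : ℕ}
    (M : Matrix (Fin a) (Fin b) E) (u : Fin N → Fin a → E) (v : Fin N → Fin b → E)
    (m : Fin N → ℕ) (t : Fin N → K) (w : Fin b → K) : Prop :=
  columnMinors (pencil M u v fun e => (MvPolynomial.X e : MvPolynomial (Fin N) E) ^ m e) ≠ ⊥ ∧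
  (∃ P ∈ (columnMinors (pencil M u v
      fun e => (MvPolynomial.X e : MvPolynomial (Fin N) E) ^ m e)).minimalPrimes,
    ∀ F : MvPolynomial (Fin N) E, F ∈ P ↔ MvPolynomial.aeval t F = (0 : K)) ∧
  IntermediateField.adjoin E (Set.range t) = ⊤ ∧
  (∃ i, w i = 1) ∧ (pencil M u v fun e => t e ^ m e).mulVec w = 0

/-- The elements `w j` and `t e ^ m e * ∑ j, v e j * w j`. -/
noncomputable def coordinates {E K : Type u} [Field E] [Field K] [Algebra E K] {b N : ℕ}
    (v : Fin N → Fin b → E) (m : Fin N → ℕ) (t : Fin N → K) (w : Fin b → K) : Fin b ⊕ Fin N → K :=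
  Sum.elim w fun e => t e ^ m e * ∑ j, algebraMap E K (v e j) * w j

/-- The group of monomials: the subgroup of `Kˣ` which is generated by the nonzero elements of
`E`, by the nonzero linear combinations over `E` of the `w j` and `t e ^ m e * ∑ j, v e j * w j`,
and by the nonzero `t e`. -/
def monomials {E K : Type u} [Field E] [Field K] [Algebra E K] {b N : ℕ}
    (v : Fin N → Fin b → E) (m : Fin N → ℕ) (t : Fin N → K) (w : Fin b → K) : Subgroup Kˣ :=
  Subgroup.closure {z | (z : K) ∈ Set.range (algebraMap E K) ∨
    (z : K) ∈ Submodule.span E (Set.range (coordinates v m t w)) ∨ ∃ e, (z : K) = t e}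

/-- The ring of integers of the number field `k`, as a subring of the extension field `F`. -/
def integers (k F : Type) [Field k] [Field F] [Algebra k F] : Subring F :=
  ((algebraMap k F).comp (algebraMap (𝓞 k) k)).range

/-- `R` is a noetherian ring with fraction field `E`, which contains `O` and is contained in the
coordinate rings of all charts `h ≠ 0` of `Proj O[W]`, and `R` is a Dedekind ring (or a field), or
`V ∩ E` is log uniformizable on `Spec R`. -/
def IsBaseModel {E K : Type u} [Field E] [Field K] [Algebra E K] (V : ValuationSubring K)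
    (O : Subring K) (W : Set K) (R : Subring E) : Prop :=
  IsNoetherianRing R ∧ (∀ g : E, ∃ a ∈ R, ∃ b ∈ R, b ≠ 0 ∧ g = a * b⁻¹) ∧
    O ≤ R.map (algebraMap E K) ∧ (∀ h ∈ W, h ≠ 0 → R.map (algebraMap E K) ≤ chart O W h) ∧
    (IsDedekindDomain R ∨ IsLogUniformizable (V.comap (algebraMap E K)) R)

/-- The nonzero homogeneous coordinates `W` are monomials, and for every chart `h ≠ 0` the `t e` and
`w j` are quotients `c' / c` of elements of its coordinate ring such that `c` is a monomial. -/
def IsMonomialModel {E K : Type u} [Field E] [Field K] [Algebra E K] {b N : ℕ}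
    (v : Fin N → Fin b → E) (m : Fin N → ℕ) (t : Fin N → K) (w : Fin b → K)
    (O : Subring K) (W : Set K) : Prop :=
  (∃ h ∈ W, h ≠ 0) ∧ (∀ g ∈ W, g ≠ 0 → ∃ z ∈ monomials v m t w, (z : K) = g) ∧
  ∀ h ∈ W, h ≠ 0 →
    (∀ e, ∃ c ∈ chart O W h, (∃ z ∈ monomials v m t w, (z : K) = c) ∧ c * t e ∈ chart O W h) ∧
    ∀ j, ∃ c ∈ chart O W h, (∃ z ∈ monomials v m t w, (z : K) = c) ∧ c * w j ∈ chart O W h

lemma mem_of_integers {k F : Type} [Field k] [NumberField k] [Field F] [Algebra k F]
    (V : ValuationSubring F) : ∀ a ∈ integers k F, a ∈ V := by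
  rintro _ ⟨a, rfl⟩
  have h0 : IsIntegral ℤ (((algebraMap k F).comp (algebraMap (𝓞 k) k)) a) :=
    (RingOfIntegers.isIntegral a).map ((algebraMap k F).comp (algebraMap (𝓞 k) k)).toIntAlgHom
  have h1 : IsIntegral V (((algebraMap k F).comp (algebraMap (𝓞 k) k)) a) := h0.tower_top
  obtain ⟨y, hy⟩ := IsIntegrallyClosed.isIntegral_iff.1 h1
  rw [← hy]
  exact y.2

/-- Let `k` be a number field, `F` an extension field of `k`, and `W ⊆ F` a finite set such that `F`
is the function field of the integral projective flat scheme `𝒳 = Proj O[W]` over the ring of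
integers `O` of `k`. Let `F` be the function field of a component of the locus over a subfield `E` at
which the rank of the matrix `M + ∑ e, t e ^ m e • u e ⊗ v e` is less than its number `b` of columns,
with the kernel vector `w` (`IsRankDropField`), and let `𝒳` be given by monomials
(`IsMonomialModel`). Let `S` be a finite set of primes which do not divide the `m e`, and for all
`p ∈ S` let `V p` be a valuation ring of `F`, of any rank, with `|p| < 1` and `F = (V p)[1/p]`, and
let `R` be a base model (`IsBaseModel`) with the fraction field `E`.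

Then there is a closed subscheme of `𝒳`, contained in the union of the fibres over the `p ∈ S`, such
that the blowing-up of `𝒳` in this subscheme is, for all `p ∈ S`, regular at the centres of `V p` and
of all valuation rings `V₁ ⊇ V p`, with a fibre over `p` with normal crossings there. -/
theorem result {k E F : Type} [Field k] [NumberField k] [Field E] [Field F] [Algebra k F]
    [Algebra E F] (W : Set F) (hW : W.Finite)
    {a b N : ℕ} (M : Matrix (Fin a) (Fin b) E) (u : Fin N → Fin a → E) (v : Fin N → Fin b → E)
    (m : Fin N → ℕ) (t : Fin N → F) (w : Fin b → F) (hF : IsRankDropField M u v m t w)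
    (hM : IsMonomialModel v m t w (integers k F) W)
    (S : Finset ℕ) (hS : ∀ p ∈ S, p.Prime) (hm : ∀ p ∈ S, ∀ e, ¬ p ∣ m e)
    (V : ℕ → ValuationSubring F) (hpV : ∀ p ∈ S, (V p).valuation (p : F) < 1)
    (htop : ∀ p ∈ S, ∀ a : F, ∃ n : ℕ, (p : F) ^ n * a ∈ V p)
    (R : Subring E) (hR : ∀ p ∈ S, IsBaseModel (V p) (integers k F) W R) :
    ∃ Y : Set F, IsVerticalCentre (integers k F) ((∏ p ∈ S, p : ℕ) : F) W Y ∧
      ∀ p ∈ S, ∀ V₁ : ValuationSubring F, V p ≤ V₁ →
        IsRegularAtCentre V₁ (integers k F) (blowUpCoordinates W Y) (p : F) := by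
  have hc : CharZero F := charZero_of_injective_algebraMap (algebraMap k F).injective
  set O := integers k F with hOdef
  obtain ⟨hI, ⟨P, hPm, hPt⟩, hgen, ⟨i₀, hwi⟩, hw⟩ := hF
  obtain ⟨⟨h₀, hh₀, hh₀0⟩, hWm, hWA⟩ := hM
  have hOV : ∀ p ∈ S, ∀ a ∈ O, a ∈ V p := fun p _ => mem_of_integers (V p)
  obtain ⟨Y, hY1, hY2⟩ := Pool.Agent.N98.SS.multi_prod O S hS V hOV hpV W fun p hpS => by
    have hpf : Fact p.Prime := ⟨hS p hpS⟩
    obtain ⟨hRn, hfr, hOR, hRA, hRLU⟩ := hR p hpS
    have hO := hOV p hpS
    -- the chart
    obtain ⟨h, hh, hhm⟩ := Set.exists_max_image W (V p).valuation hW ⟨h₀, hh₀⟩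
    have hh0 : h ≠ 0 := by
      rintro rfl
      have h1 := hhm h₀ hh₀
      rw [map_zero, le_zero_iff, map_eq_zero] at h1
      exact hh₀0 h1
    have hhV : ∀ v ∈ W, v / h ∈ V p := by
      intro v hv
      rw [← (V p).valuation_le_one_iff, map_div₀]
      exact (div_le_one₀ (zero_lt_iff.2 ((map_ne_zero _).2 hh0))).2 (hhm v hv)
    have hchV : chart O W h ≤ (V p).toSubring := by
      unfold chart
      rw [Subring.closure_le]
      rintro g (hg | ⟨g', hg', rfl⟩)
      · exact hO g hg
      · exact hhV g' hg'
    have hRW : R ≤ ((V p).comap (algebraMap E F)).toSubring := fun a ha =>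
      hchV (hRA h hh hh0 ⟨a, ha, rfl⟩)
    have hLU : LogUnif ((V p).comap (algebraMap E F)) R := by
      rcases hRLU with hR | hR
      · exact logUnif_of_dedekind _ R hRW hfr
      · exact hR
    obtain ⟨hMod, T', n', X, hSt, hmon⟩ := Pool.Agent.U186.RD.drop_stage (V p) p (hpV p hpS) O hO R
      hfr hLU M u v m (hm p hpS) hI P hPm t hgen hPt w i₀ hwi hw hW hh hh0 hhV hWm hOR
      (hRA h hh hh0) (hWA h hh hh0).1 (hWA h hh hh0).2 (p : F) (natCast_mem _ p)
      (Nat.cast_ne_zero.2 (hS p hpS).ne_zero)
    obtain ⟨Y, d, n, h1, h2, h3, w', h4, h5, h6, h7⟩ :=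
      Pool.Agent.N98.SS.model_at_of (V p) O hO hW hh hh0 hhV hSt hmon (natCast_mem _ p)
        (htop p hpS)
    exact ⟨Y, ⟨h1, d, n, h2, h3⟩, w', h4, h5, h6, h7⟩
  refine ⟨Y, hY1, fun p hpS V₁ hV₁ => ?_⟩
  obtain ⟨w', hw', hw'0, hwV, hNC⟩ := hY2 p hpS
  refine ⟨w', hw', hw'0, fun v hv => hV₁ (hwV v hv), ?_⟩
  refine Pool.Agent.N98.SS.nc_coarse (V p) V₁ hV₁ _ ?_ (p : F) hNC
  unfold chart
  rw [Subring.closure_le]
  rintro z (hz | ⟨y, hy, rfl⟩)
  · exact hOV p hpS z hz
  · exact hwV y hy

end Pool.Agent.Results.MP_6a3dac_ag.RankDropAtValuations
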